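import Mathlib

/-!
# The fixed point of `1 ↦ 12122121`, `2 ↦ 2` is not `k`-automatic for any `k`

The positions `p j` of the letter `1` satisfy `3 p j = 7 j + c j`, where `c` adds up the weights
`0, -1, 1, 0` of the base-4 digits `0, 1, 2, 3`.
-/

set_option autoImplicit false

namespace Pool.Agent.Results.MP_ad6ded_lc.NotAutomatic

/-- The finite words of the problem: `word n` is `x_{n+1}`, that is, `x_1 = 12` and
`x_{n+1} = x_n x_n x_n^R x_n^R 2`. -/
def word : ℕ → List ℕ
  | 0 => [1, 2]
  | n + 1 => word n ++ word n ++ (word n).reverse ++ (word n).reverse ++ [2]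

/-- `a` is the infinite word which has every `x_n` as a prefix. -/
def IsLimit (a : ℕ → ℕ) : Prop := ∀ n, (List.range (word n).length).map a = word n

/-- The `k`-kernel `{(a (k ^ e * n + j))_n : e ≥ 0, 0 ≤ j < k ^ e}` of a sequence. -/
def kernel (k : ℕ) (a : ℕ → ℕ) : Set (ℕ → ℕ) :=
  {b | ∃ e j : ℕ, j < k ^ e ∧ b = fun n => a (k ^ e * n + j)}

/-- A sequence is `k`-automatic if its `k`-kernel is a finite set of sequences. -/
def IsAutomatic (k : ℕ) (a : ℕ → ℕ) : Prop := (kernel k a).Finite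

/-! ### The digit sum -/

/-- The sum of the weights `0, -1, 1, 0` of the base-4 digits. -/
def c (n : ℕ) : ℤ :=
  if n = 0 then 0 else c (n / 4) + (if n % 4 = 1 then -1 else if n % 4 = 2 then 1 else 0)
termination_by n
decreasing_by omega

theorem c_zero : c 0 = 0 := by rw [c]; simp

theorem c_eq (n : ℕ) :
    c n = c (n / 4) + (if n % 4 = 1 then -1 else if n % 4 = 2 then 1 else 0) := by
  by_cases h : n = 0
  · subst h; simp [c_zero]
  · rw [c]; simp [h]

theorem c_four0 (j : ℕ) : c (4 * j) = c j := by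
  rw [c_eq]
  have h1 : 4 * j / 4 = j := by omega
  have h2 : 4 * j % 4 = 0 := by omega
  rw [h1, h2]; simp

theorem c_four1 (j : ℕ) : c (4 * j + 1) = c j - 1 := by
  rw [c_eq]
  have h1 : (4 * j + 1) / 4 = j := by omega
  have h2 : (4 * j + 1) % 4 = 1 := by omega
  rw [h1, h2]; simp; ring

theorem c_four2 (j : ℕ) : c (4 * j + 2) = c j + 1 := by
  rw [c_eq]
  have h1 : (4 * j + 2) / 4 = j := by omega
  have h2 : (4 * j + 2) % 4 = 2 := by omega
  rw [h1, h2]; simp

theorem c_four3 (j : ℕ) : c (4 * j + 3) = c j := by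
  rw [c_eq]
  have h1 : (4 * j + 3) / 4 = j := by omega
  have h2 : (4 * j + 3) % 4 = 3 := by omega
  rw [h1, h2]; simp

theorem c_step (j : ℕ) : c (j + 1) = c j - 1 ∨ c (j + 1) = c j + 2 := by
  induction j using Nat.strong_induction_on with
  | _ j ih =>
    obtain ⟨i, hi⟩ : ∃ i, j = 4 * i ∨ j = 4 * i + 1 ∨ j = 4 * i + 2 ∨ j = 4 * i + 3 :=
      ⟨j / 4, by omega⟩
    rcases hi with h | h | h | h
    · subst h
      left; rw [c_four1, c_four0]
    · subst h
      right
      rw [show 4 * i + 1 + 1 = 4 * i + 2 by ring, c_four1, c_four2]; ring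
    · subst h
      left
      rw [show 4 * i + 2 + 1 = 4 * i + 3 by ring, c_four3, c_four2]; ring
    · subst h
      rw [show 4 * i + 3 + 1 = 4 * (i + 1) by ring, c_four3, c_four0]
      exact ih i (by omega)

theorem c_pow (n : ℕ) : ∀ q r : ℕ, r < 4 ^ n → c (4 ^ n * q + r) = c q + c r := by
  induction n with
  | zero =>
    intro q r hr
    have : r = 0 := by simpa using hr
    subst this
    simp [c_zero]
  | succ n ih =>
    intro q r hr
    have hr' : r / 4 < 4 ^ n := by
      rw [pow_succ] at hr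
      omega
    rw [c_eq (4 ^ (n + 1) * q + r), c_eq r]
    have e1 : (4 ^ (n + 1) * q + r) / 4 = 4 ^ n * q + r / 4 := by
      rw [pow_succ, show 4 ^ n * 4 * q = 4 * (4 ^ n * q) by ring]
      omega
    have e2 : (4 ^ (n + 1) * q + r) % 4 = r % 4 := by
      rw [pow_succ, show 4 ^ n * 4 * q = 4 * (4 ^ n * q) by ring]
      omega
    rw [e1, e2, ih q (r / 4) hr']
    ring

/-- No difference of `c` is constant on a long interval. -/
theorem noPer : ∀ r : ℕ, 1 ≤ r → ∀ (κ : ℤ) (s M : ℕ), 12 * r ≤ M + 1 →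
    ¬ ∀ j, s ≤ j → j < s + M → c (j + r) = c j + κ := by
  intro r
  induction r using Nat.strong_induction_on with
  | _ r ih =>
    intro hr κ s M hM h
    obtain ⟨r', hr'⟩ : ∃ i, r = 4 * i ∨ r = 4 * i + 1 ∨ r = 4 * i + 2 ∨ r = 4 * i + 3 :=
      ⟨r / 4, by omega⟩
    rcases hr' with h' | h' | h' | h'
    · subst h'
      refine ih r' (by omega) (by omega) κ ((s + 3) / 4) ((s + M + 3) / 4 - (s + 3) / 4)
        (by omega) ?_
      intro j hj1 hj2
      have := h (4 * j) (by omega) (by omega)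
      rw [show 4 * j + 4 * r' = 4 * (j + r') by ring, c_four0, c_four0] at this
      exact this
    · subst h'
      have a1 := h (4 * ((s + 3) / 4)) (by omega) (by omega)
      have a2 := h (4 * ((s + 3) / 4) + 1) (by omega) (by omega)
      rw [show 4 * ((s + 3) / 4) + (4 * r' + 1) = 4 * ((s + 3) / 4 + r') + 1 by ring,
        c_four1, c_four0] at a1
      rw [show 4 * ((s + 3) / 4) + 1 + (4 * r' + 1) = 4 * ((s + 3) / 4 + r') + 2 by ring,
        c_four2, c_four1] at a2
      omega
    · subst h'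
      have key : ∀ i, s ≤ 4 * i → 4 * i + 3 < s + M →
          c (i + r' + 1) = c (i + r') + 2 := by
        intro i h1 h2
        have a1 := h (4 * i) (by omega) (by omega)
        have a2 := h (4 * i + 2) (by omega) (by omega)
        rw [show 4 * i + (4 * r' + 2) = 4 * (i + r') + 2 by ring, c_four2, c_four0] at a1
        rw [show 4 * i + 2 + (4 * r' + 2) = 4 * (i + r' + 1) by ring, c_four2, c_four0] at a2
        omega
      have b1 := key ((s + 3) / 4) (by omega) (by omega)
      have b2 := key ((s + 3) / 4 + 1) (by omega) (by omega)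
      obtain ⟨u, hu⟩ : ∃ u, (s + 3) / 4 + r' = 2 * u ∨ (s + 3) / 4 + r' = 2 * u + 1 :=
        ⟨((s + 3) / 4 + r') / 2, by omega⟩
      have even : ∀ u, c (2 * u + 1) = c (2 * u) - 1 := by
        intro u
        obtain ⟨v, hv⟩ : ∃ v, u = 2 * v ∨ u = 2 * v + 1 := ⟨u / 2, by omega⟩
        rcases hv with hv | hv
        · subst hv
          rw [show 2 * (2 * v) + 1 = 4 * v + 1 by ring, show 2 * (2 * v) = 4 * v by ring,
            c_four1, c_four0]
        · subst hv
          rw [show 2 * (2 * v + 1) + 1 = 4 * v + 3 by ring,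
            show 2 * (2 * v + 1) = 4 * v + 2 by ring, c_four3, c_four2]
          ring
      rcases hu with hu | hu
      · rw [hu, even u] at b1
        omega
      · rw [show (s + 3) / 4 + 1 + r' = 2 * (u + 1) by omega, even (u + 1)] at b2
        omega
    · subst h'
      have a1 := h (4 * ((s + 3) / 4) + 1) (by omega) (by omega)
      have a2 := h (4 * ((s + 3) / 4) + 2) (by omega) (by omega)
      rw [show 4 * ((s + 3) / 4) + 1 + (4 * r' + 3) = 4 * ((s + 3) / 4 + r' + 1) by ring,
        c_four1, c_four0] at a1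
      rw [show 4 * ((s + 3) / 4) + 2 + (4 * r' + 3) = 4 * ((s + 3) / 4 + r' + 1) + 1 by ring,
        c_four1, c_four2] at a2
      omega

/-! ### The positions of the letter `1` -/

/-- The position of the `j`-th letter `1` (counted from `0`). -/
def p : ℕ → ℕ
  | 0 => 0
  | j + 1 => p j + (if c (j + 1) = c j + 2 then 3 else 2)

theorem p_eq (j : ℕ) : (3 * p j : ℤ) = 7 * j + c j := by
  induction j with
  | zero => simp [p, c_zero]
  | succ j ih =>
    rw [p]
    rcases c_step j with h | h
    · rw [if_neg (by omega), h]; push_cast; linarith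
    · rw [if_pos h, h]; push_cast; linarith

theorem p_lower (j : ℕ) : p j + 2 ≤ p (j + 1) := by
  rw [p]; split_ifs <;> omega

theorem p_upper (j : ℕ) : p (j + 1) ≤ p j + 3 := by
  rw [p]; split_ifs <;> omega

theorem p_mono : StrictMono p := strictMono_nat_of_lt_succ fun j => by
  have := p_lower j; omega

theorem p_add_lower (j r : ℕ) : p j + 2 * r ≤ p (j + r) := by
  induction r with
  | zero => simp
  | succ r ih =>
    have := p_lower (j + r)
    rw [← add_assoc]
    omega

theorem p_add_upper (j r : ℕ) : p (j + r) ≤ p j + 3 * r := by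
  induction r with
  | zero => simp
  | succ r ih =>
    have := p_upper (j + r)
    rw [← add_assoc]
    omega

open Classical in
/-- The infinite word. -/
noncomputable def x (N : ℕ) : ℕ := if ∃ j, p j = N then 1 else 2

theorem x_eq_one {N : ℕ} : x N = 1 ↔ ∃ j, p j = N := by
  unfold x; split_ifs with h
  · simp [h]
  · simp [h]

theorem x_cases (N : ℕ) : x N = 1 ∨ x N = 2 := by
  unfold x; split_ifs <;> simp

theorem x_p (j : ℕ) : x (p j) = 1 := x_eq_one.2 ⟨j, rfl⟩

theorem x_between {j N : ℕ} (h1 : p j < N) (h2 : N < p (j + 1)) : x N = 2 := by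
  rcases x_cases N with h | h
  · obtain ⟨i, hi⟩ := x_eq_one.1 h
    subst hi
    have a1 := p_mono.lt_iff_lt.1 h1
    have a2 := p_mono.lt_iff_lt.1 h2
    omega
  · exact h

/-- `P n` is the length of `x_{n+1}`. -/
def P (n : ℕ) : ℕ := p (4 ^ n)

theorem P_eq (n : ℕ) : (3 * P n : ℤ) = 7 * 4 ^ n - 1 := by
  rw [P, p_eq]
  have : c (4 ^ n) = -1 := by
    have h := c_pow n 1 0 (by positivity)
    rw [mul_one, add_zero, c_zero] at h
    rw [h]
    have := c_four1 0
    simpa [c_zero] using this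
  rw [this]; push_cast; ring

theorem P_eq' (n : ℕ) : 3 * P n + 1 = 7 * 4 ^ n := by
  have := P_eq n
  zify; linarith

theorem p_block {n q r : ℕ} (hr : r < 4 ^ n) : p (4 ^ n * q + r) = p (4 ^ n * q) + p r := by
  have h1 := p_eq (4 ^ n * q + r)
  have h2 := p_eq (4 ^ n * q)
  have h3 := p_eq r
  have h4 := c_pow n q r hr
  have h5 := c_pow n q 0 (by positivity)
  rw [add_zero, c_zero] at h5
  rw [h4] at h1
  rw [h5] at h2
  push_cast at h1 h2
  zify
  linarith

theorem p_next (n q : ℕ) : p (4 ^ n * q) + P n ≤ p (4 ^ n * (q + 1)) := by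
  have h1 := p_eq (4 ^ n * (q + 1))
  have h2 := p_eq (4 ^ n * q)
  have h5 := c_pow n q 0 (by positivity)
  have h6 := c_pow n (q + 1) 0 (by positivity)
  rw [add_zero, c_zero, add_zero] at h5 h6
  rw [h6] at h1
  rw [h5] at h2
  have h7 := P_eq n
  push_cast at h1 h2
  zify
  rcases c_step q with h | h
  · rw [h] at h1; linarith
  · rw [h] at h1; linarith

/-- Every block of the infinite word on level `n` is a copy of the prefix. -/
theorem x_block {n q i : ℕ} (hi : i < P n) : x (p (4 ^ n * q) + i) = x i := by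
  have : x (p (4 ^ n * q) + i) = 1 ↔ x i = 1 := by
    rw [x_eq_one, x_eq_one]
    constructor
    · rintro ⟨j, hj⟩
      have h1 : 4 ^ n * q ≤ j := p_mono.le_iff_le.1 (by omega)
      have h2 : j < 4 ^ n * (q + 1) := p_mono.lt_iff_lt.1 (by have := p_next n q; omega)
      obtain ⟨r, rfl⟩ := Nat.exists_eq_add_of_le h1
      have hr : r < 4 ^ n := by rw [mul_add, mul_one] at h2; omega
      rw [p_block hr] at hj
      exact ⟨r, by omega⟩
    · rintro ⟨r, rfl⟩
      have hr : r < 4 ^ n := p_mono.lt_iff_lt.1 hi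
      exact ⟨4 ^ n * q + r, p_block hr⟩
  rcases x_cases (p (4 ^ n * q) + i) with h | h <;> rcases x_cases i with h' | h'
  · rw [h, h']
  · rw [this.1 h] at h'; omega
  · rw [this.2 h'] at h; omega
  · rw [h, h']

/-! ### The finite words -/

/-- The word `φ ^ n (1)`. -/
def W : ℕ → List ℕ
  | 0 => [1]
  | n + 1 => W n ++ [2] ++ W n ++ [2, 2] ++ W n ++ [2] ++ W n

theorem W_reverse (n : ℕ) : (W n).reverse = W n := by
  induction n with
  | zero => simp [W]
  | succ n ih => simp [W, ih]

theorem word_eq (n : ℕ) : word n = W n ++ [2] := by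
  induction n with
  | zero => simp [word, W]
  | succ n ih => simp [word, W, ih, W_reverse]

theorem P_zero : P 0 = 2 := by have := P_eq' 0; omega

theorem P_succ (n : ℕ) : P (n + 1) = 4 * P n + 1 := by
  have h1 := P_eq' n
  have h2 := P_eq' (n + 1)
  rw [pow_succ] at h2
  omega

theorem W_length (n : ℕ) : (W n).length + 1 = P n := by
  induction n with
  | zero => simp [W, P_zero]
  | succ n ih => simp [W, P_succ]; omega

theorem p_mul (n : ℕ) : p (4 ^ n * 1) = P n ∧ p (4 ^ n * 2) = 2 * P n + 1 ∧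
    p (4 ^ n * 3) = 3 * P n + 1 := by
  have key : ∀ q, (3 * p (4 ^ n * q) : ℤ) = 7 * 4 ^ n * q + c q := by
    intro q
    have h5 := c_pow n q 0 (by positivity)
    rw [add_zero, c_zero, add_zero] at h5
    rw [p_eq, h5]
    push_cast
    ring
  have c1 : c 1 = -1 := by simpa [c_zero] using c_four1 0
  have c2 : c 2 = 1 := by simpa [c_zero] using c_four2 0
  have c3 : c 3 = 0 := by simpa [c_zero] using c_four3 0
  have h := P_eq n
  have k1 := key 1
  have k2 := key 2
  have k3 := key 3
  rw [c1] at k1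
  rw [c2] at k2
  rw [c3] at k3
  push_cast at k1 k2 k3
  refine ⟨?_, ?_, ?_⟩ <;> zify <;> linarith

theorem x_last (n : ℕ) : x (P n - 1) = 2 := by
  have h4 : 0 < 4 ^ n := by positivity
  have e : 4 ^ n - 1 + 1 = 4 ^ n := by omega
  have h1 := p_lower (4 ^ n - 1)
  have h2 := p_upper (4 ^ n - 1)
  have h3 := p_eq (4 ^ n - 1)
  rw [e] at h1 h2
  have hP : p (4 ^ n) = P n := rfl
  rw [hP] at h1 h2
  refine x_between (j := 4 ^ n - 1) ?_ ?_
  · omega
  · rw [e, hP]; omega

theorem map_shift (f : ℕ → ℕ) (s m : ℕ) :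
    (List.range (s + m)).map f = (List.range s).map f ++ (List.range m).map (fun i => f (s + i)) := by
  rw [List.range_add, List.map_append, List.map_map]
  rfl

theorem map_W (n : ℕ) : (List.range (P n - 1)).map x = W n := by
  induction n with
  | zero =>
    rw [P_zero]
    have := x_p 0
    simp only [p] at this
    simp [W, this]
  | succ n ih =>
    obtain ⟨q1, q2, q3⟩ := p_mul n
    have hP : 1 ≤ P n := by have := W_length n; omega
    have l1 : ∀ (s : ℕ), (∀ i < P n, x (s + i) = x i) →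
        (List.range (P n)).map (fun i => x (s + i)) = W n ++ [2] := by
      intro s hs
      have : (List.range (P n)).map (fun i => x (s + i)) = (List.range (P n)).map x :=
        List.map_congr_left fun i hi => hs i (List.mem_range.1 hi)
      rw [this]
      conv_lhs => rw [show P n = P n - 1 + 1 by omega]
      rw [List.range_succ, List.map_append, ih]
      simp [x_last]
    have l2 : ∀ (s : ℕ), (∀ i < P n, x (s + i) = x i) →
        (List.range (P n - 1)).map (fun i => x (s + i)) = W n := by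
      intro s hs
      rw [← ih]
      exact List.map_congr_left fun i hi => hs i (by have := List.mem_range.1 hi; omega)
    have b0 : ∀ i < P n, x (0 + i) = x i := by intro i _; rw [zero_add]
    have b1 : ∀ i < P n, x (P n + i) = x i := by
      intro i hi; rw [← q1]; exact x_block hi
    have b2 : ∀ i < P n, x (2 * P n + 1 + i) = x i := by
      intro i hi; rw [← q2]; exact x_block hi
    have b3 : ∀ i < P n, x (3 * P n + 1 + i) = x i := by
      intro i hi; rw [← q3]; exact x_block hi
    have hmid : x (2 * P n) = 2 := by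
      have h4 : 0 < 4 ^ n := by positivity
      have e : 4 ^ n * 2 - 1 + 1 = 4 ^ n * 2 := by omega
      have e2 : 4 ^ n * 2 - 1 = 4 ^ n * 1 + (4 ^ n - 1) := by omega
      have h5 : p (4 ^ n * 2 - 1) < 2 * P n := by
        rw [e2, p_block (by omega), q1]
        have h1 := p_lower (4 ^ n - 1)
        rw [show 4 ^ n - 1 + 1 = 4 ^ n by omega] at h1
        have hP : p (4 ^ n) = P n := rfl
        omega
      exact x_between h5 (by rw [e, q2]; omega)
    have e : P (n + 1) - 1 = P n + (P n + (1 + (P n + (P n - 1)))) := by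
      rw [P_succ]; omega
    rw [e, map_shift, map_shift, map_shift, map_shift]
    have t1 := l1 0 b0
    simp only [zero_add] at t1
    rw [t1, l1 _ b1]
    have t2 : (List.range 1).map (fun i => x (P n + (P n + i))) = [2] := by
      have h0 : x (P n + (P n + 0)) = 2 := by rw [add_zero, ← two_mul]; exact hmid
      rw [List.range_one]
      simp only [List.map_cons, List.map_nil, h0]
    rw [t2]
    have t3 : (List.range (P n)).map (fun i => x (P n + (P n + (1 + i)))) = W n ++ [2] := by
      have := l1 _ b2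
      rw [← this]
      refine List.map_congr_left fun i _ => ?_
      congr 1; ring
    have t4 : (List.range (P n - 1)).map (fun i => x (P n + (P n + (1 + (P n + i))))) = W n := by
      have := l2 _ b3
      rw [← this]
      refine List.map_congr_left fun i _ => ?_
      congr 1; ring
    rw [t3, t4]
    simp [W]

theorem word_length (n : ℕ) : (word n).length = P n := by
  rw [word_eq, List.length_append, ← W_length]; rfl

theorem x_isLimit : IsLimit x := by
  intro n
  rw [word_length, word_eq]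
  have hP : 1 ≤ P n := by have := W_length n; omega
  conv_lhs => rw [show P n = P n - 1 + 1 by omega]
  rw [List.range_succ, List.map_append, map_W]
  simp [x_last]

theorem isLimit_unique {a : ℕ → ℕ} (ha : IsLimit a) : a = x := by
  funext N
  have hN : N < (word N).length := by
    rw [word_length]
    have := P_eq' N
    have h2 : N < 4 ^ N := Nat.lt_pow_self (by norm_num)
    omega
  exact List.map_inj_left.1 ((ha N).trans (x_isLimit N).symm) N (List.mem_range.2 hN)

/-! ### No high powers -/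

/-- The word `x` has no local period `δ` on an interval of length `20 δ`. -/
theorem no_power {A L δ : ℕ} (hδ : 1 ≤ δ) (hL : 20 * δ ≤ L)
    (h : ∀ y, A ≤ y → y < A + L → x (y + δ) = x y) : False := by
  classical
  -- the first letter `1` in the interval
  have hex : ∃ j, A ≤ p j := ⟨A, p_mono.le_apply⟩
  obtain ⟨j0, hj0, hj0'⟩ : ∃ j0, A ≤ p j0 ∧ p j0 ≤ A + 2 := by
    refine ⟨Nat.find hex, Nat.find_spec hex, ?_⟩
    by_cases h0 : Nat.find hex = 0
    · rw [h0]; simp [p]
    · obtain ⟨i, hi⟩ := Nat.exists_eq_succ_of_ne_zero h0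
      have := Nat.find_min hex (m := i) (by omega)
      have h2 := p_upper i
      rw [hi]
      simp only [Nat.succ_eq_add_one] at *
      omega
  have h1 : x (p j0 + δ) = 1 := by
    rw [h _ hj0 (by omega)]; exact x_p j0
  obtain ⟨j1, hj1⟩ := x_eq_one.1 h1
  have hlt : j0 < j1 := p_mono.lt_iff_lt.1 (by omega)
  obtain ⟨r, rfl⟩ := Nat.exists_eq_add_of_lt hlt
  have main : ∀ t, p (j0 + t) < A + L → p (j0 + t + (r + 1)) = p (j0 + t) + δ := by
    intro t
    induction t with
    | zero =>
      intro _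
      simpa [add_assoc] using hj1
    | succ t ih =>
      intro ht
      have hm := p_lower (j0 + t)
      have ih' := ih (by rw [← add_assoc] at ht; omega)
      have hA : A ≤ p (j0 + t) := by
        have := p_mono.monotone (show j0 ≤ j0 + t by omega)
        omega
      have h2 : x (p (j0 + t + 1) + δ) = 1 := by
        rw [h _ (by omega) (by rw [← add_assoc] at ht; exact ht)]
        exact x_p _
      obtain ⟨j2, hj2⟩ := x_eq_one.1 h2
      have h3 : j0 + t + (r + 1) < j2 := p_mono.lt_iff_lt.1 (by omega)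
      have h4 : p (j0 + t + (r + 1) + 1) ≤ p (j0 + t + 1) + δ := by
        rw [← hj2]
        exact p_mono.monotone (by omega)
      have h5 := p_lower (j0 + t + (r + 1))
      obtain ⟨z, hz⟩ : ∃ z, p (j0 + t + (r + 1) + 1) = z + δ :=
        ⟨p (j0 + t + (r + 1) + 1) - δ, by omega⟩
      have h6 : x z = 1 := by
        rw [← h z (by omega) (by rw [← add_assoc] at ht; omega), ← hz]
        exact x_p _
      obtain ⟨j3, hj3⟩ := x_eq_one.1 h6
      have h7 : j0 + t < j3 := p_mono.lt_iff_lt.1 (by omega)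
      have h8 : p (j0 + t + 1) ≤ z := by
        rw [← hj3]
        exact p_mono.monotone (by omega)
      have e1 : j0 + (t + 1) + (r + 1) = j0 + t + (r + 1) + 1 := by ring
      have e2 : j0 + (t + 1) = j0 + t + 1 := by ring
      rw [e1, e2]
      omega
  have hr : 2 * (r + 1) ≤ δ := by
    have := p_add_lower j0 (r + 1)
    rw [← add_assoc] at this
    omega
  refine noPer (r + 1) (by omega) (3 * δ - 7 * (r + 1)) j0 ((L - 2) / 3) (by omega) ?_
  intro j hj1 hj2
  obtain ⟨t, rfl⟩ := Nat.exists_eq_add_of_le hj1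
  have h9 : p (j0 + t) < A + L := by
    have := p_add_upper j0 t
    omega
  have h10 := main t h9
  have h11 := p_eq (j0 + t + (r + 1))
  have h12 := p_eq (j0 + t)
  rw [h10] at h11
  push_cast at h11 h12 ⊢
  linarith

/-! ### The pigeonhole principle -/

theorem pigeon {k : ℕ} (hfin : IsAutomatic k x) (f : ℕ → ℕ) :
    ∃ s t, s < t ∧ ∀ e j, j < k ^ e → x (k ^ e * f s + j) = x (k ^ e * f t + j) := by
  have : Finite (kernel k x) := hfin
  obtain ⟨s, t, hst, h⟩ := Finite.exists_ne_map_eq_of_infinite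
    (fun s : ℕ => {b : kernel k x | b.1 (f s) = 1})
  have key : ∀ e j, j < k ^ e → x (k ^ e * f s + j) = x (k ^ e * f t + j) := by
    intro e j hj
    have h1 : (⟨fun n => x (k ^ e * n + j), e, j, hj, rfl⟩ : kernel k x) ∈
        {b : kernel k x | b.1 (f s) = 1} ↔ (⟨fun n => x (k ^ e * n + j), e, j, hj, rfl⟩ :
        kernel k x) ∈ {b : kernel k x | b.1 (f t) = 1} := by
      have h' : {b : kernel k x | b.1 (f s) = 1} = {b : kernel k x | b.1 (f t) = 1} := h
      rw [h']
    have h2 : x (k ^ e * f s + j) = 1 ↔ x (k ^ e * f t + j) = 1 := h1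
    rcases x_cases (k ^ e * f s + j) with h3 | h3 <;> rcases x_cases (k ^ e * f t + j) with h4 | h4
    · rw [h3, h4]
    · rw [h2.1 h3] at h4; omega
    · rw [h2.2 h4] at h3; omega
    · rw [h3, h4]
  rcases lt_or_gt_of_ne hst with h' | h'
  · exact ⟨s, t, h', key⟩
  · exact ⟨t, s, h', fun e j hj => (key e j hj).symm⟩

/-! ### Powers of two -/

/-- The number with `3 s` base-4 digits `1`, divided by `3`. -/
def u : ℕ → ℕ
  | 0 => 0
  | s + 1 => 64 * u s + 7

theorem c_u (s : ℕ) : c (3 * u s) = -3 * s := by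
  induction s with
  | zero => simp [u, c_zero]
  | succ s ih =>
    rw [u, show 3 * (64 * u s + 7) = 4 * (4 * (4 * (3 * u s) + 1) + 1) + 1 by ring,
      c_four1, c_four1, c_four1, ih]
    push_cast
    ring

theorem p_u (n s : ℕ) : p (4 ^ n * (3 * u s)) + s = 4 ^ n * (7 * u s) := by
  have h5 := c_pow n (3 * u s) 0 (by positivity)
  rw [add_zero, c_zero, add_zero, c_u] at h5
  have h6 := p_eq (4 ^ n * (3 * u s))
  rw [h5] at h6
  push_cast at h6
  zify
  linarith

theorem not_automatic_two_pow {b : ℕ} (hb : 1 ≤ b) : ¬ IsAutomatic (2 ^ b) x := by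
  intro h
  obtain ⟨s, t, hst, hk⟩ := pigeon h (fun s => 7 * u s)
  -- a high level
  obtain ⟨n, hn⟩ : ∃ n, 20 * (t - s) + s + t < 4 ^ (b * n) := by
    refine ⟨20 * (t - s) + s + t, ?_⟩
    calc 20 * (t - s) + s + t < 4 ^ (20 * (t - s) + s + t) := Nat.lt_pow_self (by norm_num)
      _ ≤ 4 ^ (b * (20 * (t - s) + s + t)) :=
        Nat.pow_le_pow_right (by norm_num) (Nat.le_mul_of_pos_left _ hb)
  have hpow : (2 ^ b) ^ (2 * n) = 4 ^ (b * n) := by
    rw [show (4 : ℕ) = 2 ^ 2 by norm_num, ← pow_mul, ← pow_mul]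
    congr 1; ring
  have hP := P_eq' (b * n)
  refine no_power (A := s) (L := 20 * (t - s)) (δ := t - s) (by omega) le_rfl ?_
  intro y hy1 hy2
  obtain ⟨i, rfl⟩ := Nat.exists_eq_add_of_le hy1
  have h1 := hk (2 * n) i (by rw [hpow]; omega)
  rw [hpow] at h1
  have e1 : 4 ^ (b * n) * (7 * u s) + i = p (4 ^ (b * n) * (3 * u s)) + (s + i) := by
    have := p_u (b * n) s
    omega
  have e2 : 4 ^ (b * n) * (7 * u t) + i = p (4 ^ (b * n) * (3 * u t)) + (t + i) := by
    have := p_u (b * n) t
    omega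
  have h2 : x (4 ^ (b * n) * (7 * u s) + i) = x (s + i) := by
    rw [e1]; exact x_block (by omega)
  have h3 : x (4 ^ (b * n) * (7 * u t) + i) = x (t + i) := by
    rw [e2]; exact x_block (by omega)
  rw [show s + i + (t - s) = t + i by omega, ← h2, ← h3]
  exact h1.symm

/-! ### The other bases -/

theorem not_pow {k : ℕ} (hk : ∀ b, k ≠ 2 ^ b) {m n : ℕ} (hm : m ≠ 0) : k ^ m ≠ 4 ^ n := by
  intro h
  have h1 : k ∣ 2 ^ (2 * n) := by
    rw [pow_mul, show (2 : ℕ) ^ 2 = 4 by norm_num, ← h]
    exact dvd_pow_self k hm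
  obtain ⟨b, _, hb⟩ := (Nat.dvd_prime_pow Nat.prime_two).1 h1
  exact hk b hb

/-- Powers of `k` and of `4` can be relatively close. -/
theorem close {k : ℕ} (hk2 : 2 ≤ k) (B : ℕ) :
    ∃ m n : ℕ, m ≠ 0 ∧ (B : ℝ) * |(k : ℝ) ^ m - 4 ^ n| ≤ 4 ^ n := by
  have hk0 : (0 : ℝ) < k := by exact_mod_cast (by omega : 0 < k)
  have hlog4 : 0 < Real.log 4 := Real.log_pos (by norm_num)
  have hlogk : 0 < Real.log k := Real.log_pos (by exact_mod_cast (by omega : 1 < k))
  set ξ : ℝ := Real.log k / Real.log 4 with hξ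
  have hξ0 : 0 < ξ := div_pos hlogk hlog4
  -- choose a large bound
  obtain ⟨N, hN⟩ := exists_nat_gt (2 * Real.log 4 * (B + 1) + Real.log 4 + 1 / ξ)
  have hlog4' : 0 < 2 * Real.log 4 * (B + 1) := by positivity
  have hξ1 : 0 < 1 / ξ := by positivity
  have hNpos : 0 < N := by
    have : (0 : ℝ) < N := by linarith
    exact_mod_cast this
  obtain ⟨j, m, hm0, hmN, hjm⟩ := Real.exists_int_int_abs_mul_sub_le ξ hNpos
  obtain ⟨m', rfl⟩ := Int.eq_ofNat_of_zero_le hm0.le
  have hm' : 1 ≤ m' := by omega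
  have hj0 : 0 ≤ j := by
    by_contra hneg
    push Not at hneg
    have h1 : (j : ℝ) ≤ -1 := by exact_mod_cast (by omega : j ≤ -1)
    have h2 : (1 : ℝ) ≤ (m' : ℝ) * ξ - j := by
      have : 0 ≤ (m' : ℝ) * ξ := by positivity
      linarith
    have h3 : (m' : ℝ) * ξ - j ≤ 1 / (N + 1) := by
      have := le_trans (le_abs_self _) hjm
      simpa using this
    have h4 : (1 : ℝ) / (N + 1) < 1 := by
      rw [div_lt_one (by positivity)]
      have : (0 : ℝ) < N := by exact_mod_cast hNpos
      linarith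
    linarith
  obtain ⟨n', rfl⟩ := Int.eq_ofNat_of_zero_le hj0
  refine ⟨m', n', by omega, ?_⟩
  set τ : ℝ := ((m' : ℝ) * ξ - n') * Real.log 4 with hτ
  have hτabs : |τ| ≤ Real.log 4 / (N + 1) := by
    rw [hτ, abs_mul, abs_of_pos hlog4]
    have h1 : |(m' : ℝ) * ξ - n'| ≤ 1 / (N + 1) := by simpa using hjm
    calc |(m' : ℝ) * ξ - n'| * Real.log 4 ≤ 1 / (N + 1) * Real.log 4 :=
          mul_le_mul_of_nonneg_right h1 hlog4.le
      _ = Real.log 4 / (N + 1) := by ring
  have hexp : (k : ℝ) ^ m' = 4 ^ n' * Real.exp τ := by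
    have h1 : (k : ℝ) ^ m' = Real.exp (m' * Real.log k) := by
      rw [← Real.log_pow, Real.exp_log (by positivity)]
    have h2 : (4 : ℝ) ^ n' = Real.exp (n' * Real.log 4) := by
      rw [← Real.log_pow, Real.exp_log (by positivity)]
    rw [h1, h2, ← Real.exp_add]
    congr 1
    rw [hτ, hξ]
    field_simp
    ring
  have hN1 : (0 : ℝ) < (N : ℝ) + 1 := by positivity
  have hτ1 : |τ| ≤ 1 := by
    refine hτabs.trans ?_
    rw [div_le_one hN1]
    linarith
  have h5 := Real.abs_exp_sub_one_le hτ1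
  have h6 : (B : ℝ) * |Real.exp τ - 1| ≤ 1 := by
    calc (B : ℝ) * |Real.exp τ - 1| ≤ B * (2 * (Real.log 4 / (N + 1))) := by
          refine mul_le_mul_of_nonneg_left (h5.trans ?_) (by positivity)
          linarith
      _ = (2 * Real.log 4 * B) / (N + 1) := by ring
      _ ≤ 1 := by
          rw [div_le_one hN1]
          nlinarith
  have h7 : |(k : ℝ) ^ m' - 4 ^ n'| = 4 ^ n' * |Real.exp τ - 1| := by
    rw [hexp, ← abs_of_pos (show (0 : ℝ) < 4 ^ n' by positivity), ← abs_mul,
      abs_of_pos (show (0 : ℝ) < 4 ^ n' by positivity)]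
    congr 1; ring
  rw [h7]
  calc (B : ℝ) * (4 ^ n' * |Real.exp τ - 1|) = 4 ^ n' * (B * |Real.exp τ - 1|) := by ring
    _ ≤ 4 ^ n' * 1 := mul_le_mul_of_nonneg_left h6 (by positivity)
    _ = 4 ^ n' := by ring

theorem c_three_pow (s : ℕ) : c (3 * 4 ^ s) = 0 := by
  have h := c_pow s 3 0 (by positivity)
  rw [add_zero, c_zero, mul_comm] at h
  rw [h]
  simpa [c_zero] using c_four3 0

theorem p_three_pow (n s : ℕ) : p (4 ^ n * (3 * 4 ^ s)) = 4 ^ n * (7 * 4 ^ s) := by
  have h5 := c_pow n (3 * 4 ^ s) 0 (by positivity)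
  rw [add_zero, c_zero, add_zero, c_three_pow] at h5
  have h6 := p_eq (4 ^ n * (3 * 4 ^ s))
  rw [h5] at h6
  push_cast at h6
  zify
  linarith

theorem not_automatic_of_ne {k : ℕ} (hk2 : 2 ≤ k) (hk : ∀ b, k ≠ 2 ^ b) :
    ¬ IsAutomatic k x := by
  intro h
  obtain ⟨s, t, hst, hk'⟩ := pigeon h (fun s => 7 * 4 ^ s)
  set X : ℕ := 7 * 4 ^ s with hX
  obtain ⟨d, hd, hd'⟩ : ∃ d, 1 ≤ d ∧ 7 * 4 ^ t = X + d := by
    have : 4 ^ s < 4 ^ t := Nat.pow_lt_pow_right (by norm_num) hst
    exact ⟨7 * 4 ^ t - X, by omega, by omega⟩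
  obtain ⟨m, n, hm, hmn⟩ := close hk2 (X + 20 * d + 1)
  set K : ℕ := k ^ m with hK
  set Q : ℕ := 4 ^ n with hQ
  have hne : K ≠ Q := not_pow hk hm
  have hP := P_eq' n
  rw [← hQ] at hP
  have hkK : ∀ j, j < K → x (K * X + j) = x (K * (X + d) + j) := by
    intro j hj
    have h1 : x (k ^ m * (7 * 4 ^ s) + j) = x (k ^ m * (7 * 4 ^ t) + j) := hk' m j hj
    rw [hd', ← hK, ← hX] at h1
    exact h1
  have hQQ : ∀ i, i < P n → x (Q * X + i) = x (Q * (X + d) + i) := by
    intro i hi
    have h1 := x_block (n := n) (q := 3 * 4 ^ s) hi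
    have h2 := x_block (n := n) (q := 3 * 4 ^ t) hi
    rw [p_three_pow] at h1 h2
    rw [hd'] at h2
    exact h1.trans h2.symm
  rcases lt_or_gt_of_ne hne with hlt | hlt
  · -- `K < Q`
    obtain ⟨D, hD⟩ := Nat.exists_eq_add_of_lt hlt
    have hb : (X + 20 * d + 1) * (D + 1) ≤ Q := by
      have h1 : |((k : ℝ) ^ m - 4 ^ n)| = ((D + 1 : ℕ) : ℝ) := by
        have : (k : ℝ) ^ m - 4 ^ n = -((D + 1 : ℕ) : ℝ) := by
          have h2 : ((Q : ℕ) : ℝ) = ((K + D + 1 : ℕ) : ℝ) := by rw [← hD]
          rw [hQ, hK] at h2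
          push_cast at h2 ⊢
          linarith
        rw [this, abs_neg, abs_of_nonneg (by positivity)]
      rw [h1] at hmn
      exact_mod_cast hmn
    have hlen : (D + 1) * X + 20 * (d * (D + 1)) + (D + 1) ≤ Q := by
      calc (D + 1) * X + 20 * (d * (D + 1)) + (D + 1) = (X + 20 * d + 1) * (D + 1) := by ring
        _ ≤ Q := hb
    have hδ : 1 ≤ d * (D + 1) := Nat.mul_pos hd (Nat.succ_pos _)
    refine no_power (A := Q * X + K * d) (L := 20 * (d * (D + 1))) (δ := d * (D + 1)) hδ le_rfl ?_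
    intro y hy1 hy2
    obtain ⟨i, rfl⟩ := Nat.exists_eq_add_of_le hy1
    have hi : i < 20 * (d * (D + 1)) := by omega
    have s1 := hQQ i (by omega)
    have s2 := hkK ((D + 1) * X + i) (by omega)
    have e1 : Q * X + K * d + i + d * (D + 1) = Q * (X + d) + i := by
      rw [hD]; ring
    have e2 : Q * X + K * d + i = K * (X + d) + ((D + 1) * X + i) := by
      rw [hD]; ring
    have e3 : Q * X + i = K * X + ((D + 1) * X + i) := by
      rw [hD]; ring
    rw [e1, e2, ← s2, ← s1, e3]
  · -- `Q < K`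
    obtain ⟨D, hD⟩ := Nat.exists_eq_add_of_lt hlt
    have hb : (X + 20 * d + 1) * (D + 1) ≤ Q := by
      have h1 : |((k : ℝ) ^ m - 4 ^ n)| = ((D + 1 : ℕ) : ℝ) := by
        have : (k : ℝ) ^ m - 4 ^ n = ((D + 1 : ℕ) : ℝ) := by
          have h2 : ((K : ℕ) : ℝ) = ((Q + D + 1 : ℕ) : ℝ) := by rw [← hD]
          rw [hQ, hK] at h2
          push_cast at h2 ⊢
          linarith
        rw [this, abs_of_nonneg (by positivity)]
      rw [h1] at hmn
      exact_mod_cast hmn
    have hlen : (D + 1) * X + 20 * (d * (D + 1)) + (D + 1) ≤ Q := by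
      calc (D + 1) * X + 20 * (d * (D + 1)) + (D + 1) = (X + 20 * d + 1) * (D + 1) := by ring
        _ ≤ Q := hb
    have hδ : 1 ≤ d * (D + 1) := Nat.mul_pos hd (Nat.succ_pos _)
    refine no_power (A := K * X + Q * d) (L := 20 * (d * (D + 1))) (δ := d * (D + 1)) hδ le_rfl ?_
    intro y hy1 hy2
    obtain ⟨i, rfl⟩ := Nat.exists_eq_add_of_le hy1
    have hi : i < 20 * (d * (D + 1)) := by omega
    have s1 := hkK i (by omega)
    have s2 := hQQ ((D + 1) * X + i) (by omega)
    have e1 : K * X + Q * d + i + d * (D + 1) = K * (X + d) + i := by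
      rw [hD]; ring
    have e2 : K * X + Q * d + i = Q * (X + d) + ((D + 1) * X + i) := by
      rw [hD]; ring
    have e3 : K * X + i = Q * X + ((D + 1) * X + i) := by
      rw [hD]; ring
    rw [e1, e2, ← s2, ← s1, e3]

theorem not_automatic {k : ℕ} (hk2 : 2 ≤ k) : ¬ IsAutomatic k x := by
  by_cases hk : ∃ b, k = 2 ^ b
  · obtain ⟨b, rfl⟩ := hk
    refine not_automatic_two_pow ?_
    rcases Nat.eq_zero_or_pos b with h | h
    · subst h; simp at hk2
    · exact h
  · push Not at hk
    exact not_automatic_of_ne hk2 hk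

/-- There is exactly one infinite word `a` with all the words `x_n` as prefixes, and it is not
`k`-automatic for any `k ≥ 2`. In particular it is not `2`-automatic. -/
theorem result : (∃! a : ℕ → ℕ, IsLimit a) ∧
    ∀ a : ℕ → ℕ, IsLimit a → ∀ k : ℕ, 2 ≤ k → ¬ IsAutomatic k a := by
  refine ⟨⟨x, x_isLimit, fun a ha => isLimit_unique ha⟩, ?_⟩
  intro a ha k hk
  rw [isLimit_unique ha]
  exact not_automatic hk

end Pool.Agent.Results.MP_ad6ded_lc.NotAutomatic
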